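import Pool.Agent.X22.ND4

/-!
# Frobenius averages for families of products of two hyperelliptic curves, the coefficients of the first family arising from
arbitrary integers by changing a few digits: the residue formula with an error `x ^ δ`

Nothing is used besides Mathlib in the statement.
-/

set_option autoImplicit false

namespace Pool.Agent.Results.MP_6090f9_nt.FewDigitFibreProducts

open Finset

/-- The value modulo `p` of `f (x, t) = x ^ n + ∑ m l x ^ i t ^ J`, `E l = (i, J)`, where `t = (t 1, ..., t k)` and `l` runs through the `d`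
monomials. -/
def fiber (p n : ℕ) {k d : ℕ} (E : Fin d → ℕ × (Fin k → ℕ)) (m : Fin d → ℕ) (x : ZMod p) (t : Fin k → ZMod p) : ZMod p :=
  x ^ n + ∑ l, (m l : ZMod p) * (x ^ (E l).1 * ∏ j, t j ^ (E l).2 j)

/-- The trace of Frobenius on `H¹` of the fibre `C_t : Y ^ 2 = f (X, t)` modulo `p`: `p` minus the number of its affine points (for `n` odd there is
one point at infinity). -/
noncomputable def traceC (p n : ℕ) {k d : ℕ} (E : Fin d → ℕ × (Fin k → ℕ)) (m : Fin d → ℕ) (t : Fin k → ZMod p) : ℤ :=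
  p - Nat.card {P : ZMod p × ZMod p // P.2 ^ 2 = fiber p n E m P.1 t}

/-- The trace of Frobenius on `H¹` of the fibre `D_t : Z ^ 2 = h (U, t)` modulo `p`, for a polynomial `h` in `U` whose coefficients are
polynomials in `t = (t 1, ..., t k)`. -/
noncomputable def traceD (p : ℕ) {k : ℕ} (h : Polynomial (MvPolynomial (Fin k) ℤ)) (t : Fin k → ZMod p) : ℤ :=
  p - Nat.card {P : ZMod p × ZMod p //
    P.2 ^ 2 = (h.map (MvPolynomial.eval₂Hom (Int.castRingHom (ZMod p)) t)).eval P.1}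

/-- The fibre average `𝔅_p = p ^ (-k) ∑ b_p (t)` over the points `t` of the base `𝔸 ^ k` modulo `p` (`p` prime) of the traces
`b_p (t) = 2 p + a_p (C_t) a_p (D_t)` of Frobenius on `H²` of the surfaces `C_t × D_t`. -/
noncomputable def average (p n : ℕ) {k d : ℕ} (E : Fin d → ℕ × (Fin k → ℕ)) (m : Fin d → ℕ) (h : Polynomial (MvPolynomial (Fin k) ℤ)) : ℝ :=
  (∑ᶠ t : Fin k → ZMod p, ((2 * p + traceC p n E m t * traceD p h t : ℤ) : ℝ)) / (p : ℝ) ^ k

/-- The sum of `w p · (𝔅_p / p - 2) · log p` over the odd primes `p ≤ x`. -/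
noncomputable def total (n : ℕ) {k d : ℕ} (E : Fin d → ℕ × (Fin k → ℕ)) (m : Fin d → ℕ) (h : Polynomial (MvPolynomial (Fin k) ℤ))
    (w : ℕ → ℂ) (x : ℕ) : ℂ :=
  ∑ p ∈ (range (x + 1)).filter (fun p => p.Prime ∧ p ≠ 2), w p * (((average p n E m h / p - 2) * Real.log p : ℝ) : ℂ)

/-- The digit number `i` (counted from the right, beginning with `0`) of `n` in base `b`. -/
def digit (b i n : ℕ) : ℕ := n / b ^ i % b

/-- The number which arises from the number `N` with at most `K` digits in base `b`, if for every `i ∈ S`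
the digit number `i` is replaced by `f i`. -/
def change (b K N : ℕ) (f : ℕ → ℕ) (S : Finset ℕ) : ℕ :=
  ∑ i ∈ range K, (if i ∈ S then f i else digit b i N) * b ^ i

open Classical in
/-- The number of the choices of `r l` of `K l` positions for all `l < d` for which the vector of the numbers obtained by
changing the digits of the `N l` at the chosen positions (according to `f l`) does not have the property `E`. -/
noncomputable def exceptions {d : ℕ} (b : ℕ) (K r N : Fin d → ℕ) (f : Fin d → ℕ → ℕ) (E : (Fin d → ℕ) → Prop) : ℕ :=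
  ((Fintype.piFinset (fun l => powersetCard (r l) (range (K l)))).filter
    (fun S => ¬ E (fun l => change b (K l) (N l) (f l) (S l)))).card

open Pool.Agent.X22.ND (op mem_op mz_law absorb mean_wt mean_wt_sq wt_bound trace_mod)
open Pool.Agent.TH894.NE (mean mean_mul)

lemma traceC_eq (p n : ℕ) {k d : ℕ} (E : Fin d → ℕ × (Fin k → ℕ)) (m : Fin d → ℕ) (t : Fin k → ZMod p) :
    traceC p n E m t = Pool.Agent.X22.ND.trace p n E m t := rfl

lemma traceD_bound (p : ℕ) (hp : p.Prime) (h2 : p ≠ 2) {k : ℕ} (h : Polynomial (MvPolynomial (Fin k) ℤ)) (hm : h.Monic)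
    (ho : Odd h.natDegree) (t : Fin k → ZMod p) : |(traceD p h t : ℝ)| ≤ h.natDegree * Real.sqrt p := by
  have hf : Fact p.Prime := ⟨hp⟩
  have h3 : ringChar (ZMod p) ≠ 2 := by
    rw [ZMod.ringChar_zmod_n]
    exact h2
  obtain ⟨g, hg⟩ : ∃ g : Polynomial (ZMod p), g = h.map (MvPolynomial.eval₂Hom (Int.castRingHom (ZMod p)) t) := ⟨_, rfl⟩
  have hgd : g.natDegree = h.natDegree := by
    rw [hg]
    exact hm.natDegree_map _
  have h4 := Pool.Agent.H126T.card_aff h3 g (1 : ZMod p) one_ne_zero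
  have e1 : {P : ZMod p × ZMod p // 1 * P.2 ^ 2 = g.eval P.1} = {P : ZMod p × ZMod p // P.2 ^ 2 = g.eval P.1} := by
    congr 1
    funext P
    rw [one_mul]
  rw [e1, ZMod.card, map_one, one_mul] at h4
  have h5 := Pool.Agent.H341R2.Sharp.weil_sharp h3 g (by rw [hgd]; exact ho.pos) (by
    intro c h' hgh
    by_cases hc : c = 0
    · rw [hc] at hgh
      simp at hgh
      rw [hgh, Polynomial.natDegree_zero] at hgd
      have := ho.pos
      omega
    · have h5 : g.natDegree = 2 * h'.natDegree := by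
        rw [hgh, Polynomial.natDegree_C_mul hc, Polynomial.natDegree_pow]
      rw [hgd] at h5
      rw [h5] at ho
      exact (Nat.not_odd_iff_even.2 (even_two_mul _)) ho)
  rw [hgd, ZMod.card] at h5
  unfold traceD
  rw [← hg, h4]
  push_cast
  rw [sub_add_cancel_left, abs_neg]
  refine h5.trans ?_
  have h6 : 0 ≤ Real.sqrt (p : ℝ) := Real.sqrt_nonneg _
  nlinarith

lemma average_eq (p n : ℕ) (hp : p.Prime) {k d : ℕ} (E : Fin d → ℕ × (Fin k → ℕ)) (m : Fin d → ℕ) (h : Polynomial (MvPolynomial (Fin k) ℤ)) :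
    haveI : Fact p.Prime := ⟨hp⟩
    average p n E m h / p - 2 = (1 / (p : ℝ) ^ (k + 1)) * ∑ t : Fin k → ZMod p, (traceD p h t : ℝ) * (Pool.Agent.X22.ND.trace p n E m t : ℝ) := by
  have hf : Fact p.Prime := ⟨hp⟩
  have hp0 : (p : ℝ) ≠ 0 := by exact_mod_cast hp.ne_zero
  unfold average
  rw [finsum_eq_sum_of_fintype]
  push_cast
  rw [sum_add_distrib, sum_const, card_univ, Fintype.card_fun, Fintype.card_fin, ZMod.card, nsmul_eq_mul]
  push_cast
  have e1 : ∑ t : Fin k → ZMod p, (traceC p n E m t : ℝ) * (traceD p h t : ℝ) =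
      ∑ t : Fin k → ZMod p, (traceD p h t : ℝ) * (Pool.Agent.X22.ND.trace p n E m t : ℝ) := by
    apply sum_congr rfl
    intro t _
    rw [traceC_eq, mul_comm]
  rw [e1, pow_succ]
  field_simp
  ring

lemma harmonic_op (x : ℕ) : ∑ p ∈ op x, 1 / (p : ℝ) ≤ Real.log x + 1 := by
  have h1 : ∑ p ∈ op x, 1 / (p : ℝ) ≤ ∑ i ∈ Icc 1 x, 1 / (i : ℝ) := by
    apply sum_le_sum_of_subset_of_nonneg
    · intro p hp
      rw [mem_op] at hp
      rw [mem_Icc]
      exact ⟨hp.2.1.one_lt.le, hp.1⟩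
    · intro i _ _
      positivity
  have h2 := harmonic_le_one_add_log x
  rw [harmonic_eq_sum_Icc] at h2
  push_cast at h2
  simp only [one_div] at h1 ⊢
  linarith

/-- Let `f (X, T) = X ^ n + ∑ m l X ^ i T ^ J` be the polynomial with `d` monomials `X ^ i T ^ J`, `E l = (i, J)`, `i < n`, `T = (T 1, ..., T k)`, `n` odd,
`k ≥ 1`, with the coefficients `m l`; the monomials `1`, `X`, `T 1`, ..., `T k` occur among them. Let a base `b ≥ 2`, an integer `B`,
`δ > 0` and an integer `A ≥ 0` be given. There are `c > 0` and `y₀` such that for all integers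
`r l`, `K l`, `y` with `2 r l ≤ K l` and `y ≥ y₀` the following holds.

Let `0 ≤ N l < b ^ K l` be arbitrary integers, prescribe for every position `j` a digit `g l j` different from the digit of
`N l` in base `b`, and let `W x` be for every `x` a set of at most `x ^ A` pairs `(w, h)` of a weight function `w` of absolute value at most `1`
and a polynomial `h (U, T)` with integer coefficients, monic in `U` of odd degree at most `B`. If one chooses
`r l` of the `K l` positions and replaces the digits of `N l` at these positions, then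
for all but at most a proportion `1 / y ^ A` of the choices the family of curves `C_T : Y ^ 2 = f (X, T)` over `𝔸 ^ k` with the
coefficients `m l` obtained has the following property: for all integers `x` with
`y ≤ x ≤ exp (c r l)` for all `l` and all `(w, h) ∈ W x` the family of the products of `C_T` and of the curve `D_T : Z ^ 2 = h (U, T)` satisfies
`|∑ w p (𝔅_p / p - 2) log p| ≤ x ^ δ`, the sum running over the odd primes `p ≤ x`. -/
theorem result (b n k d B : ℕ) (E : Fin d → ℕ × (Fin k → ℕ)) (hb : 2 ≤ b) (hn : Odd n) (hk : 1 ≤ k) (hE : ∀ l, (E l).1 < n)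
    (h0 : ∃ l, E l = (0, 0)) (h1 : ∃ l, E l = (1, 0)) (ht : ∀ j, ∃ l, E l = (0, Pi.single j 1)) (δ : ℝ) (hδ : 0 < δ) (A : ℕ) :
    ∃ c : ℝ, 0 < c ∧ ∃ y₀ : ℕ,
    ∀ (K r : Fin d → ℕ) (y : ℕ), (∀ l, 2 * r l ≤ K l) → y₀ ≤ y →
    ∀ N : Fin d → ℕ, (∀ l, N l < b ^ K l) → ∀ g : Fin d → ℕ → ℕ, (∀ l j, g l j < b ∧ g l j ≠ digit b j (N l)) →
    ∀ W : ℕ → Finset ((ℕ → ℂ) × Polynomial (MvPolynomial (Fin k) ℤ)), (∀ x, (W x).card ≤ x ^ A) →
      (∀ x, ∀ w ∈ W x, (∀ p, ‖w.1 p‖ ≤ 1) ∧ w.2.Monic ∧ Odd w.2.natDegree ∧ w.2.natDegree ≤ B) →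
      (exceptions b K r N g (fun m => ∀ x : ℕ, y ≤ x → (∀ l, (x : ℝ) ≤ Real.exp (c * r l)) → ∀ w ∈ W x,
        ‖total n E m w.2 w.1 x‖ ≤ (x : ℝ) ^ δ) : ℝ) ≤
        1 / (y : ℝ) ^ A * ∏ l, ((K l).choose (r l) : ℝ) := by
  classical
  have hd : 1 ≤ d := by
    obtain ⟨l, _⟩ := h0
    exact Fin.pos l
  obtain ⟨c, hc, y₀, h⟩ := mz_law b d hb hd (δ / 2) (by positivity) A (A + 1)
  obtain ⟨x₁, hx₁⟩ := absorb (2 * n * B + 1) (δ / 4) (by positivity) (by positivity)
  refine ⟨c, hc, y₀ + x₁ + 2, fun K r y hrK hy N hN g hg W hW1 hW2 => ?_⟩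
  have hmem : ∀ x, ∀ w ∈ (W x).image (fun w => ((fun p => (w.1 p).re), w.2)) ∪ (W x).image (fun w => ((fun p => (w.1 p).im), w.2)),
      (∀ p, |w.1 p| ≤ 1) ∧ w.2.Monic ∧ Odd w.2.natDegree ∧ w.2.natDegree ≤ B := by
    intro x w hw
    rw [mem_union, mem_image, mem_image] at hw
    rcases hw with ⟨u, hu, rfl⟩ | ⟨u, hu, rfl⟩
    · exact ⟨fun p => (Complex.abs_re_le_norm _).trans ((hW2 x u hu).1 p), (hW2 x u hu).2⟩
    · exact ⟨fun p => (Complex.abs_im_le_norm _).trans ((hW2 x u hu).1 p), (hW2 x u hu).2⟩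
  have hB0 : (0 : ℝ) ≤ B := Nat.cast_nonneg B
  have hn1 : (1 : ℝ) ≤ n := by exact_mod_cast hn.pos
  obtain ⟨Z, hZ⟩ : ∃ Z : ℕ → ((ℕ → ℝ) × Polynomial (MvPolynomial (Fin k) ℤ)) → ℕ → (Fin d → ℕ) → ℝ, Z = fun _ w p m => if hp : p.Prime then
      haveI : Fact p.Prime := ⟨hp⟩
      (w.1 p * Real.log p * (1 / (p : ℝ) ^ (k + 1))) * ∑ t : Fin k → ZMod p, (traceD p w.2 t : ℝ) * (Pool.Agent.X22.ND.trace p n E m t : ℝ) else 0 := ⟨_, rfl⟩
  have h2 := h K r y hrK (by omega) N hN g hg ((ℕ → ℝ) × Polynomial (MvPolynomial (Fin k) ℤ))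
    (fun x => (W x).image (fun w => ((fun p => (w.1 p).re), w.2)) ∪ (W x).image (fun w => ((fun p => (w.1 p).im), w.2))) (by
      intro x hx
      refine (card_union_le _ _).trans ((add_le_add card_image_le card_image_le).trans ?_)
      have := hW1 x
      rw [pow_succ]
      nlinarith [Nat.zero_le (x ^ A)])
    Z (by
      intro x w p m hp
      rw [hZ]
      show (if hp : p.Prime then _ else _) = (if hp : p.Prime then _ else _)
      rw [dif_pos hp, dif_pos hp]
      have hf : Fact p.Prime := ⟨hp⟩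
      congr 1
      apply sum_congr rfl
      intro t _
      rw [← trace_mod]) (fun x _ => n * B * (Real.log x + 1) ^ 2) (by
      intro x hx w _
      have : 0 ≤ Real.log x := Real.log_natCast_nonneg x
      positivity) ?_ ?_ ?_
    (fun m => ∀ x : ℕ, y ≤ x → (∀ l, (x : ℝ) ≤ Real.exp (c * r l)) → ∀ w ∈ W x, ‖total n E m w.2 w.1 x‖ ≤ (x : ℝ) ^ δ) ?_
  · unfold exceptions
    exact h2
  · -- bound
    intro x hx w hw p hp m
    obtain ⟨hw1, hw2, hw3, hw4⟩ := hmem x w hw
    rw [mem_op] at hp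
    have hf : Fact p.Prime := ⟨hp.2.1⟩
    have hp1 : (1 : ℝ) ≤ p := by exact_mod_cast hp.2.1.one_lt.le
    have hp0 : (0 : ℝ) < p := by linarith
    have hpx : (p : ℝ) ≤ x := by exact_mod_cast hp.1
    have hlp : 0 ≤ Real.log p := Real.log_nonneg hp1
    have hlx : Real.log p ≤ Real.log x := Real.log_le_log (by linarith) hpx
    have hlx0 : 0 ≤ Real.log x := hlp.trans hlx
    rw [hZ]
    show |(if hp : p.Prime then _ else _)| ≤ _
    rw [dif_pos hp.2.1]
    have hw4' : (w.2.natDegree : ℝ) ≤ B := by exact_mod_cast hw4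
    have hbd := wt_bound p n hp.2.1 hp.2.2 hn E hE (fun t => (traceD p w.2 t : ℝ)) (B * Real.sqrt p) (fun t =>
      (traceD_bound p hp.2.1 hp.2.2 w.2 hw2 hw3 t).trans (mul_le_mul_of_nonneg_right hw4' (Real.sqrt_nonneg _))) m
    rw [abs_mul, abs_mul, abs_mul, abs_of_nonneg hlp, abs_of_nonneg (by positivity : 0 ≤ 1 / (p : ℝ) ^ (k + 1))]
    have hss : Real.sqrt p * Real.sqrt p = p := Real.mul_self_sqrt hp0.le
    calc |w.1 p| * Real.log p * (1 / (p : ℝ) ^ (k + 1)) * |∑ t : Fin k → ZMod p, (traceD p w.2 t : ℝ) * (Pool.Agent.X22.ND.trace p n E m t : ℝ)|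
        ≤ 1 * (Real.log x + 1) * (1 / (p : ℝ) ^ (k + 1)) * ((p : ℝ) ^ k * (B * Real.sqrt p * (n * Real.sqrt p))) := by
          gcongr
          · exact hw1 p
          · linarith
      _ = n * B * (Real.log x + 1) * ((p : ℝ) ^ k * (Real.sqrt p * Real.sqrt p) / (p : ℝ) ^ (k + 1)) := by ring
      _ = n * B * (Real.log x + 1) := by
          rw [hss, ← pow_succ, div_self (by positivity), mul_one]
      _ ≤ n * B * (Real.log x + 1) ^ 2 := by
          have h5 : Real.log x + 1 ≤ (Real.log x + 1) ^ 2 := by nlinarith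
          exact mul_le_mul_of_nonneg_left h5 (by positivity)
  · -- mean zero
    intro x hx w _ p hp
    rw [mem_op] at hp
    have hf : Fact p.Prime := ⟨hp.2.1⟩
    have h3 := mean_wt p n hp.2.1 hp.2.2 E h0 (fun t => (traceD p w.2 t : ℝ)) (w.1 p * Real.log p * (1 / (p : ℝ) ^ (k + 1)))
    rw [hZ]
    show mean d p (fun m => if hp : p.Prime then _ else _) = 0
    rw [← h3]
    congr 1
    funext m
    rw [dif_pos hp.2.1]
  · -- variance
    intro x hx w hw
    obtain ⟨hw1, hw2, hw3, hw4⟩ := hmem x w hw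
    have hlx0 : 0 ≤ Real.log x := Real.log_natCast_nonneg x
    have hw4' : (w.2.natDegree : ℝ) ≤ B := by exact_mod_cast hw4
    have hone : ∀ p ∈ op x, mean d p (fun m => Z x w p m ^ 2) ≤ (n * B) ^ 2 * (Real.log x + 1) ^ 2 * (1 / p) := by
      intro p hp
      rw [mem_op] at hp
      have hf : Fact p.Prime := ⟨hp.2.1⟩
      have hp1 : (1 : ℝ) ≤ p := by exact_mod_cast hp.2.1.one_lt.le
      have hp0 : (0 : ℝ) < p := by linarith
      have hpx : (p : ℝ) ≤ x := by exact_mod_cast hp.1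
      have hlp : 0 ≤ Real.log p := Real.log_nonneg hp1
      have hlx : Real.log p ≤ Real.log x := Real.log_le_log (by linarith) hpx
      have h3 := mean_wt_sq p n hp.2.1 hp.2.2 E h0 h1 ht (fun t => (traceD p w.2 t : ℝ)) (w.1 p * Real.log p * (1 / (p : ℝ) ^ (k + 1)))
      have e1 : mean d p (fun m => Z x w p m ^ 2) = mean d p (fun m => (w.1 p * Real.log p * (1 / (p : ℝ) ^ (k + 1)) *
          ∑ t : Fin k → ZMod p, (traceD p w.2 t : ℝ) * (Pool.Agent.X22.ND.trace p n E m t : ℝ)) ^ 2) := by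
        congr 1
        funext m
        rw [hZ]
        show (if hp : p.Prime then _ else _) ^ 2 = _
        rw [dif_pos hp.2.1]
      rw [e1]
      refine h3.trans ?_
      have h4 : ∑ t : Fin k → ZMod p, (traceD p w.2 t : ℝ) ^ 2 ≤ (p : ℝ) ^ k * (B ^ 2 * p) := by
        have h5 : ∀ t ∈ (univ : Finset (Fin k → ZMod p)), (traceD p w.2 t : ℝ) ^ 2 ≤ (B : ℝ) ^ 2 * p := by
          intro t _
          have h6 := (traceD_bound p hp.2.1 hp.2.2 w.2 hw2 hw3 t).trans (mul_le_mul_of_nonneg_right hw4' (Real.sqrt_nonneg _))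
          rw [← sq_abs]
          calc |(traceD p w.2 t : ℝ)| ^ 2 ≤ (B * Real.sqrt p) ^ 2 := pow_le_pow_left₀ (abs_nonneg _) h6 2
            _ = (B : ℝ) ^ 2 * p := by rw [mul_pow, Real.sq_sqrt hp0.le]
        refine (sum_le_sum h5).trans ?_
        rw [sum_const, card_univ, Fintype.card_fun, Fintype.card_fin, ZMod.card, nsmul_eq_mul]
        push_cast
        exact le_rfl
      have h7 : (w.1 p * Real.log p) ^ 2 ≤ (Real.log x + 1) ^ 2 := by
        rw [← sq_abs, abs_mul, abs_of_nonneg hlp]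
        apply pow_le_pow_left₀ (by positivity)
        calc |w.1 p| * Real.log p ≤ 1 * (Real.log x + 1) := by
              gcongr
              · exact hw1 p
              · linarith
          _ = Real.log x + 1 := one_mul _
      calc (w.1 p * Real.log p * (1 / (p : ℝ) ^ (k + 1))) ^ 2 * (p * ∑ t : Fin k → ZMod p, (traceD p w.2 t : ℝ) ^ 2)
          ≤ (w.1 p * Real.log p * (1 / (p : ℝ) ^ (k + 1))) ^ 2 * (p * ((p : ℝ) ^ k * (B ^ 2 * p))) := by gcongr
        _ = (w.1 p * Real.log p) ^ 2 * (B : ℝ) ^ 2 * ((p : ℝ) ^ (k + 2) / ((p : ℝ) ^ (k + 1)) ^ 2) := by ring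
        _ ≤ (Real.log x + 1) ^ 2 * ((n : ℝ) * B) ^ 2 * (1 / p) := by
            have h8 : (p : ℝ) ^ (k + 2) / ((p : ℝ) ^ (k + 1)) ^ 2 ≤ 1 / p := by
              rw [div_le_div_iff₀ (by positivity) hp0, one_mul, ← pow_succ, ← pow_mul]
              exact pow_le_pow_right₀ hp1 (by omega)
            have h9 : (B : ℝ) ^ 2 ≤ ((n : ℝ) * B) ^ 2 := by
              apply pow_le_pow_left₀ hB0
              nlinarith
            gcongr
        _ = _ := by ring
    refine (sum_le_sum hone).trans ?_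
    rw [← mul_sum]
    calc ((n : ℝ) * B) ^ 2 * (Real.log x + 1) ^ 2 * ∑ p ∈ op x, 1 / (p : ℝ)
        ≤ ((n : ℝ) * B) ^ 2 * (Real.log x + 1) ^ 2 * (Real.log x + 1) := mul_le_mul_of_nonneg_left (harmonic_op x) (by positivity)
      _ ≤ ((n : ℝ) * B) ^ 2 * (Real.log x + 1) ^ 2 * (Real.log x + 1) ^ 2 := by
          have h5 : Real.log x + 1 ≤ (Real.log x + 1) ^ 2 := by nlinarith
          exact mul_le_mul_of_nonneg_left h5 (by positivity)
      _ = (n * B * (Real.log x + 1) ^ 2) ^ 2 := by ring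
  · -- the conclusion
    intro m hm x hyx hxr w hw
    have hx0 : (0 : ℝ) < x := by exact_mod_cast (by omega : 0 < x)
    have hlx0 : 0 ≤ Real.log x := Real.log_natCast_nonneg x
    have hre := hm x hyx hxr ((fun p => (w.1 p).re), w.2) (by
      rw [mem_union, mem_image]
      exact Or.inl ⟨w, hw, rfl⟩)
    have him := hm x hyx hxr ((fun p => (w.1 p).im), w.2) (by
      rw [mem_union, mem_image, mem_image]
      exact Or.inr ⟨w, hw, rfl⟩)
    have e0 : ∀ u : ℕ → ℝ, ∀ p ∈ op x, Z x (u, w.2) p m = u p * ((average p n E m w.2 / p - 2) * Real.log p) := by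
      intro u p hp
      rw [mem_op] at hp
      have hf : Fact p.Prime := ⟨hp.2.1⟩
      rw [hZ, average_eq p n hp.2.1]
      show (if hp : p.Prime then _ else _) = _
      rw [dif_pos hp.2.1]
      ring
    have e1 : (total n E m w.2 w.1 x).re = ∑ p ∈ op x, Z x ((fun p => (w.1 p).re), w.2) p m := by
      unfold total
      rw [Complex.re_sum]
      apply sum_congr rfl
      intro p hp
      rw [Complex.re_mul_ofReal, e0 _ p hp]
    have e2 : (total n E m w.2 w.1 x).im = ∑ p ∈ op x, Z x ((fun p => (w.1 p).im), w.2) p m := by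
      unfold total
      rw [Complex.im_sum]
      apply sum_congr rfl
      intro p hp
      rw [Complex.im_mul_ofReal, e0 _ p hp]
    refine (Complex.norm_le_abs_re_add_abs_im _).trans ?_
    rw [e1, e2]
    refine (add_le_add hre him).trans ?_
    have h3 := hx₁ x (by omega)
    have h4 : (x : ℝ) ^ δ = (x : ℝ) ^ (δ / 4) * (x : ℝ) ^ (δ / 4) * (x : ℝ) ^ (δ / 2) := by
      rw [← Real.rpow_add hx0, ← Real.rpow_add hx0]
      congr 1
      ring
    rw [h4]
    have h5 : 0 ≤ (x : ℝ) ^ (δ / 2) := by positivity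
    have h6 : 2 * (n : ℝ) * B ≤ (2 * n * B + 1) ^ 2 := by nlinarith [mul_nonneg (by linarith : (0 : ℝ) ≤ n) hB0]
    have h7 : 2 * (n : ℝ) * B * (Real.log x + 1) ^ 2 ≤ (x : ℝ) ^ (δ / 4) * (x : ℝ) ^ (δ / 4) := by
      calc 2 * (n : ℝ) * B * (Real.log x + 1) ^ 2 ≤ (2 * n * B + 1) ^ 2 * (Real.log x + 1) ^ 2 := mul_le_mul_of_nonneg_right h6 (sq_nonneg _)
        _ = ((2 * n * B + 1) * (Real.log x + 1)) * ((2 * n * B + 1) * (Real.log x + 1)) := by ring
        _ ≤ _ := mul_le_mul h3 h3 (by positivity) (by positivity)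
    calc n * B * (Real.log x + 1) ^ 2 * (x : ℝ) ^ (δ / 2) + n * B * (Real.log x + 1) ^ 2 * (x : ℝ) ^ (δ / 2)
        = (2 * (n : ℝ) * B * (Real.log x + 1) ^ 2) * (x : ℝ) ^ (δ / 2) := by ring
      _ ≤ _ := mul_le_mul_of_nonneg_right h7 h5

end Pool.Agent.Results.MP_6090f9_nt.FewDigitFibreProducts
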