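import Pool.Agent.X35.GV.Twist
import Pool.Agent.X35.GM.Seq2

/-!
# Frobenius averages for ALL families of products of a twisted hyperelliptic curve `(g(T) - n) Y² = h(X, T)` and a hyperelliptic curve
`Z² = k(U, T)`, for ALL `n` near `± α v_i`, outside a set of `α` of small dimension
-/

set_option autoImplicit false

namespace Pool.Agent.Results.MP_6090f9_nt.FibreProductsNearSequences

open Finset Polynomial

/-- The polynomial `h(X, t)` over `𝔽_p`, for `h(X, T) ∈ ℤ[T][X]` and `t ∈ 𝔽_p`. -/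
noncomputable def fibre (p : ℕ) (h : ℤ[X][X]) (t : ZMod p) : (ZMod p)[X] := h.map (eval₂RingHom (Int.castRingHom (ZMod p)) t)

open Classical in
/-- The trace of Frobenius on `H¹` of the curve `C_t : (g(t) - n) Y² = h(X, t)` at `t ∈ 𝔽_p`: `p` minus the number of its affine points (there
is one point at infinity), and `0` at the points with `g(t) = n`. -/
noncomputable def traceC (p : ℕ) (g : ℤ[X]) (h : ℤ[X][X]) (n : ℤ) (t : ZMod p) : ℤ :=
  if (g.map (Int.castRingHom (ZMod p))).eval t = (n : ZMod p) then 0 else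
    p - Nat.card {P : ZMod p × ZMod p // ((g.map (Int.castRingHom (ZMod p))).eval t - (n : ZMod p)) * P.2 ^ 2 = (fibre p h t).eval P.1}

/-- The trace of Frobenius on `H¹` of the curve `D_t : Z² = k(U, t)` at `t ∈ 𝔽_p`: `p` minus the number of its affine points. -/
noncomputable def traceD (p : ℕ) (k : ℤ[X][X]) (t : ZMod p) : ℤ :=
  p - Nat.card {P : ZMod p × ZMod p // 1 * P.2 ^ 2 = (fibre p k t).eval P.1}

/-- The fibre average `𝔅_p = p⁻¹ ∑ b_p(t)` of the traces `b_p(t) = 2 p + a_p(C_t) a_p(D_t)` of Frobenius on `H²` of the surfaces `C_t × D_t`,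
the sum over the points `t = 0, ..., p - 1` of the base. -/
noncomputable def average (p : ℕ) (g : ℤ[X]) (h k : ℤ[X][X]) (n : ℤ) : ℝ :=
  (∑ t ∈ range p, ((2 * p + traceC p g h n (t : ZMod p) * traceD p k (t : ZMod p) : ℤ) : ℝ)) / p

/-- The sum of `w p (𝔅_p / p - 2) log p` over the odd primes `p ≤ x`. -/
noncomputable def total (w : ℕ → ℝ) (g : ℤ[X]) (h k : ℤ[X][X]) (n : ℤ) (x : ℕ) : ℝ :=
  ∑ p ∈ (range (x + 1)).filter (fun p => p.Prime ∧ p ≠ 2), w p * ((average p g h k n / p - 2) * Real.log p)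

lemma average_eq (p : ℕ) (hp : p.Prime) (h2 : p ≠ 2) (g : ℤ[X]) (h k : ℤ[X][X]) (n : ℤ) : haveI := Fact.mk hp
    average p g h k n / p - 2 = Pool.Agent.X35.GV.tw (fun t : ZMod p => (g.map (Int.castRingHom (ZMod p))).eval t)
      (fun t => (Pool.Agent.X35.GV.tr0 h t : ℝ) * (Pool.Agent.X35.GV.tr0 k t : ℝ)) (n : ZMod p) / (p : ℝ) ^ 2 := by
  classical
  have hF := Fact.mk hp
  have hp0 : (p : ℝ) ≠ 0 := by exact_mod_cast hp.ne_zero
  have h1 : ∑ t ∈ range p, ((2 * p + traceC p g h n (t : ZMod p) * traceD p k (t : ZMod p) : ℤ) : ℝ) =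
      2 * (p : ℝ) ^ 2 + Pool.Agent.X35.GV.tw (fun t : ZMod p => (g.map (Int.castRingHom (ZMod p))).eval t)
      (fun t => (Pool.Agent.X35.GV.tr0 h t : ℝ) * (Pool.Agent.X35.GV.tr0 k t : ℝ)) (n : ZMod p) := by
    unfold Pool.Agent.X35.GV.tw
    rw [show ∑ t ∈ range p, ((2 * p + traceC p g h n (t : ZMod p) * traceD p k (t : ZMod p) : ℤ) : ℝ) =
      ∑ t : ZMod p, ((2 * p + traceC p g h n t * traceD p k t : ℤ) : ℝ) from
      sum_bij' (fun i _ => (i : ZMod p)) (fun x _ => x.val) (fun i _ => mem_univ _)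
        (fun x _ => mem_range.2 (ZMod.val_lt x)) (fun i hi => ZMod.val_natCast_of_lt (mem_range.1 hi))
        (fun x _ => ZMod.natCast_zmod_val x) (fun i _ => rfl)]
    have h2' : ∀ t : ZMod p, ((2 * p + traceC p g h n t * traceD p k t : ℤ) : ℝ) = 2 * p +
        (Pool.Agent.H304R2.EC.Pts.qc p ((g.map (Int.castRingHom (ZMod p))).eval t - (n : ZMod p)) : ℝ) *
          ((Pool.Agent.X35.GV.tr0 h t : ℝ) * (Pool.Agent.X35.GV.tr0 k t : ℝ)) := by
      intro t
      have h3 : (traceC p g h n t : ℝ) = _ := Pool.Agent.X35.GV.trt_eq h2 g h (n : ZMod p) t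
      have h4 : traceD p k t = Pool.Agent.X35.GV.tr0 k t := rfl
      push_cast
      rw [h3, h4]
      ring
    rw [sum_congr rfl fun t _ => h2' t, sum_add_distrib, sum_const, card_univ, ZMod.card, nsmul_eq_mul]
    ring
  unfold average
  rw [h1]
  field_simp
  ring

/-- Let `δ > 0` and `A ≥ 0`. There are `κ > 0` and `C > 0` such that for all reals `v_i ≥ 1` with `∑ v_i ^ (-u) < ∞` for all `u > τ` (`τ ≥ 0`;
for example `v_i = 2 ^ i`, `τ = 0`), all `θ < 1` and all sets `W x` of at most `x ^ A` weights `w`, `|w| ≤ 1` (`x ≥ 2`), there is a set `E` of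
reals of Hausdorff dimension at most `(1 - κ + τ) / (1 - θ)` with the following property. For every real `α > 0` outside `E`, ALL monic
`g ∈ ℤ[T]` of positive degree, ALL `h, k ∈ ℤ[T][X]`, monic of odd degree in `X`, all `i ≥ i₀(α, g, h, k)`, ALL integers `n` with
`||n| - α v_i| ≤ v_i ^ θ`, ALL integers `x` with `(log |n|) ^ C ≤ x ≤ |n| ^ κ` and all weights `w ∈ W x`, the sum of
`w(p) (𝔅_p / p - 2) log p` over the odd primes `p ≤ x` for the family of the surfaces `C_t × D_t`, `C_t : (g(t) - n) Y² = h(X, t)`,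
`D_t : Z² = k(U, t)`, is at most `deg h deg k (deg g) ^ (1 / 2) x ^ δ (1 + log x) ^ 2` in absolute value. -/
theorem result (δ A : ℝ) (hδ : 0 < δ) :
    ∃ κ C : ℝ, 0 < κ ∧ 0 < C ∧ ∀ (v : ℕ → ℝ) (τ θ : ℝ), (∀ i, 1 ≤ v i) → 0 ≤ τ → θ < 1 →
      (∀ u : ℝ, τ < u → Summable (fun i => v i ^ (-u))) →
      ∀ W : ℕ → Finset (ℕ → ℝ), (∀ x, 2 ≤ x → ((W x).card : ℝ) ≤ (x : ℝ) ^ A) → (∀ x, ∀ w ∈ W x, ∀ p, |w p| ≤ 1) →
      ∃ E : Set ℝ, dimH E ≤ ENNReal.ofReal ((1 - κ + τ) / (1 - θ)) ∧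
        ∀ α : ℝ, 0 < α → α ∉ E → ∀ (g : ℤ[X]) (h k : ℤ[X][X]), g.Monic → 1 ≤ g.natDegree → h.Monic → Odd h.natDegree →
          k.Monic → Odd k.natDegree →
          ∃ i₀ : ℕ, ∀ i : ℕ, i₀ ≤ i → ∀ n : ℤ, |(|(n : ℝ)|) - α * v i| ≤ v i ^ θ →
            ∀ x : ℕ, Real.log |(n : ℝ)| ^ C ≤ x → (x : ℝ) ≤ |(n : ℝ)| ^ κ → ∀ w ∈ W x,
              |total w g h k n x| ≤ h.natDegree * k.natDegree * √(g.natDegree) * (x : ℝ) ^ δ * (1 + Real.log x) ^ 2 := by
  classical
  obtain ⟨κ, hκ, hκ1, H⟩ := Pool.Agent.X35.GV.lawWinF δ A 1 hδ le_rfl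
  refine ⟨κ, 2 / δ, hκ, by positivity, fun v τ θ hv1 hτ hθ hv W hW hW1 => ?_⟩
  have := Pool.Agent.X35.GM.countable_int_poly
  have hcp : Countable ℤ[X][X] := by
    rw [← Cardinal.mk_le_aleph0_iff]
    exact Polynomial.cardinalMk_le_max.trans (max_le Cardinal.mk_le_aleph0 le_rfl)
  obtain ⟨F, hF⟩ : ∃ F : ({g : ℤ[X] // g.Monic ∧ 1 ≤ g.natDegree} × {h : ℤ[X][X] // h.Monic ∧ Odd h.natDegree} ×
      {k : ℤ[X][X] // k.Monic ∧ Odd k.natDegree}) → ℕ → (ℕ → ℝ) → ℕ → ℤ → ℝ,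
    F = fun (c : {g : ℤ[X] // g.Monic ∧ 1 ≤ g.natDegree} × {h : ℤ[X][X] // h.Monic ∧ Odd h.natDegree} ×
      {k : ℤ[X][X] // k.Monic ∧ Odd k.natDegree}) (x : ℕ) (w : ℕ → ℝ) (p : ℕ) (n : ℤ) =>
      w p * ((average p c.1.1 c.2.1.1 c.2.2.1 n / p - 2) * Real.log p) / (c.2.1.1.natDegree * c.2.2.1.natDegree * Real.log x) := ⟨_, rfl⟩
  have hmem : ∀ (x : ℕ) (p : ℕ), p ∈ (range (x + 1)).filter (fun p => p.Prime ∧ p ≠ 2) → p.Prime ∧ p ≠ 2 ∧ p ≤ x := by
    intro x p hp
    rw [mem_filter, mem_range] at hp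
    exact ⟨hp.2.1, hp.2.2, by omega⟩
  have hlog : ∀ x p : ℕ, p.Prime → p ≤ x → 0 < Real.log x ∧ Real.log p ≤ Real.log x ∧ 0 < Real.log p ∧ (0 : ℝ) < x := by
    intro x p hp hpx
    have h1 : (1 : ℝ) < p := by exact_mod_cast hp.one_lt
    have h2 : (p : ℝ) ≤ x := by exact_mod_cast hpx
    exact ⟨Real.log_pos (by linarith), Real.log_le_log (by linarith) h2, Real.log_pos h1, by linarith⟩
  have hU : ∀ (p : ℕ) (hp : p.Prime) (h2 : p ≠ 2) (h k : ℤ[X][X]) (_ : h.Monic) (_ : Odd h.natDegree) (_ : k.Monic)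
      (_ : Odd k.natDegree), haveI := Fact.mk hp
      ∀ t : ZMod p, |(Pool.Agent.X35.GV.tr0 h t : ℝ) * (Pool.Agent.X35.GV.tr0 k t : ℝ)| ≤ h.natDegree * k.natDegree * p := by
    intro p hp h2 h k hm ho km ko
    have := Fact.mk hp
    intro t
    have h3 := Pool.Agent.X35.GV.tr0_bound h2 h hm ho t
    have h4 := Pool.Agent.X35.GV.tr0_bound h2 k km ko t
    rw [abs_mul]
    calc _ ≤ (h.natDegree * √(p : ℝ)) * (k.natDegree * √(p : ℝ)) := mul_le_mul h3 h4 (abs_nonneg _) (by positivity)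
      _ = h.natDegree * k.natDegree * (√(p : ℝ) * √(p : ℝ)) := by ring
      _ = _ := by rw [Real.mul_self_sqrt (Nat.cast_nonneg _)]
  obtain ⟨E, hE1, hE2⟩ := H v τ θ hv1 hτ hθ hv
    ({g : ℤ[X] // g.Monic ∧ 1 ≤ g.natDegree} × {h : ℤ[X][X] // h.Monic ∧ Odd h.natDegree} ×
      {k : ℤ[X][X] // k.Monic ∧ Odd k.natDegree}) (ℕ → ℝ) (fun _ x => W x)
    (fun c x hx => hW x hx) ℕ
    (fun _ x _ => (range (x + 1)).filter (fun p => p.Prime ∧ p ≠ 2)) (fun _ _ p => p)
    (by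
      intro c x l _ p hp
      obtain ⟨h1, -, h3⟩ := hmem x p hp
      exact ⟨h1.two_le, by rw [pow_one]; exact h3⟩)
    (by
      intro c x l _ p hp p' hp' hne
      exact (Nat.coprime_primes (hmem x p hp).1 (hmem x p' hp').1).2 hne)
    F (fun c x _ => c.1.1.natDegree * (1 + Real.log x))
    (by
      intro c x l _ p hp m m' h
      obtain ⟨h1, h2, h3⟩ := hmem x p hp
      have h4 : ((m : ℤ) : ZMod p) = (m' : ZMod p) := (ZMod.intCast_eq_intCast_iff m m' p).2 h
      rw [hF]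
      show l p * ((average p c.1.1 c.2.1.1 c.2.2.1 m / p - 2) * Real.log p) / _ =
        l p * ((average p c.1.1 c.2.1.1 c.2.2.1 m' / p - 2) * Real.log p) / _
      rw [average_eq p h1 h2, average_eq p h1 h2, h4])
    (by
      intro c x l hl p hp m
      obtain ⟨h1, h2, h3⟩ := hmem x p hp
      obtain ⟨l1, l2, l3, l4⟩ := hlog x p h1 h3
      have := Fact.mk h1
      have hp0 : (0 : ℝ) < p := by exact_mod_cast h1.pos
      have hD : (0 : ℝ) < c.2.1.1.natDegree := by exact_mod_cast c.2.1.2.2.pos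
      have hD' : (0 : ℝ) < c.2.2.1.natDegree := by exact_mod_cast c.2.2.2.2.pos
      have h5 := Pool.Agent.X35.GV.tw_abs (fun t : ZMod p => (c.1.1.map (Int.castRingHom (ZMod p))).eval t)
        (fun t => (Pool.Agent.X35.GV.tr0 c.2.1.1 t : ℝ) * (Pool.Agent.X35.GV.tr0 c.2.2.1 t : ℝ))
        (c.2.1.1.natDegree * c.2.2.1.natDegree * p)
        (hU p h1 h2 c.2.1.1 c.2.2.1 c.2.1.2.1 c.2.1.2.2 c.2.2.2.1 c.2.2.2.2) (m : ZMod p)
      rw [hF]
      show |l p * ((average p c.1.1 c.2.1.1 c.2.2.1 m / p - 2) * Real.log p) / (c.2.1.1.natDegree * c.2.2.1.natDegree * Real.log x)| ≤ 1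
      rw [average_eq p h1 h2, abs_div, abs_mul, abs_mul, abs_div, abs_of_pos (by positivity : (0 : ℝ) < (p : ℝ) ^ 2), abs_of_pos l3,
        abs_of_pos (by positivity : (0 : ℝ) < c.2.1.1.natDegree * c.2.2.1.natDegree * Real.log x), div_le_one (by positivity)]
      have h6 : |Pool.Agent.X35.GV.tw (fun t : ZMod p => (c.1.1.map (Int.castRingHom (ZMod p))).eval t)
        (fun t => (Pool.Agent.X35.GV.tr0 c.2.1.1 t : ℝ) * (Pool.Agent.X35.GV.tr0 c.2.2.1 t : ℝ)) (m : ZMod p)| / (p : ℝ) ^ 2 ≤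
          c.2.1.1.natDegree * c.2.2.1.natDegree := by
        rw [div_le_iff₀ (by positivity)]
        refine h5.trans (le_of_eq ?_)
        ring
      calc _ ≤ 1 * ((c.2.1.1.natDegree * c.2.2.1.natDegree) * Real.log x) := by
            apply mul_le_mul (hW1 x l hl p) (mul_le_mul h6 l2 l3.le (by positivity)) (by positivity) (by norm_num)
        _ = _ := by ring)
    (by
      intro c x l _ p hp
      obtain ⟨h1, h2, h3⟩ := hmem x p hp
      have := Fact.mk h1
      have h5 := Pool.Agent.X35.GV.avg_zmod (p := p) (F c x l p) (fun n => Pool.Agent.X35.GV.tw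
        (fun t : ZMod p => (c.1.1.map (Int.castRingHom (ZMod p))).eval t)
        (fun t => (Pool.Agent.X35.GV.tr0 c.2.1.1 t : ℝ) * (Pool.Agent.X35.GV.tr0 c.2.2.1 t : ℝ)) n *
          (l p * (1 / (p : ℝ) ^ 2 * Real.log p) / (c.2.1.1.natDegree * c.2.2.1.natDegree * Real.log x))) (by
        intro n
        rw [hF]
        show l p * ((average p c.1.1 c.2.1.1 c.2.2.1 n / p - 2) * Real.log p) / (c.2.1.1.natDegree * c.2.2.1.natDegree * Real.log x) = _
        rw [average_eq p h1 h2]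
        ring)
      rw [h5, ← sum_mul, Pool.Agent.X35.GV.tw_mean h2, zero_mul, zero_div])
    (by
      intro c x l hl
      have hg1 : (1 : ℝ) ≤ c.1.1.natDegree := by exact_mod_cast c.1.2.2
      have hlx : 0 ≤ Real.log x := Real.log_natCast_nonneg x
      refine ⟨by nlinarith, ?_⟩
      have hone : ∀ p ∈ (range (x + 1)).filter (fun p => p.Prime ∧ p ≠ 2), Pool.Agent.X35.GV.avg p (fun m => F c x l p m ^ 2) ≤
          (c.1.1.natDegree : ℝ) * (1 / p) := by
        intro p hp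
        obtain ⟨h1, h2, h3⟩ := hmem x p hp
        obtain ⟨l1, l2, l3, l4⟩ := hlog x p h1 h3
        have := Fact.mk h1
        have hp0 : (0 : ℝ) < p := by exact_mod_cast h1.pos
        have hD : (0 : ℝ) < c.2.1.1.natDegree := by exact_mod_cast c.2.1.2.2.pos
        have hD' : (0 : ℝ) < c.2.2.1.natDegree := by exact_mod_cast c.2.2.2.2.pos
        have h5 := Pool.Agent.X35.GV.avg_zmod (p := p) (fun m => F c x l p m ^ 2) (fun n => Pool.Agent.X35.GV.tw
          (fun t : ZMod p => (c.1.1.map (Int.castRingHom (ZMod p))).eval t)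
          (fun t => (Pool.Agent.X35.GV.tr0 c.2.1.1 t : ℝ) * (Pool.Agent.X35.GV.tr0 c.2.2.1 t : ℝ)) n ^ 2 *
          (l p * (1 / (p : ℝ) ^ 2 * Real.log p) / (c.2.1.1.natDegree * c.2.2.1.natDegree * Real.log x)) ^ 2) (by
          intro n
          rw [hF]
          show (l p * ((average p c.1.1 c.2.1.1 c.2.2.1 n / p - 2) * Real.log p) /
            (c.2.1.1.natDegree * c.2.2.1.natDegree * Real.log x)) ^ 2 = _
          rw [average_eq p h1 h2]
          ring)
        have h6 := Pool.Agent.X35.GV.tw_sq h2 (fun t : ZMod p => (c.1.1.map (Int.castRingHom (ZMod p))).eval t) c.1.1.natDegree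
          (Pool.Agent.X35.GV.fibre_card c.1.1 c.1.2.1 c.1.2.2)
          (fun t => (Pool.Agent.X35.GV.tr0 c.2.1.1 t : ℝ) * (Pool.Agent.X35.GV.tr0 c.2.2.1 t : ℝ))
          (c.2.1.1.natDegree * c.2.2.1.natDegree * p)
          (hU p h1 h2 c.2.1.1 c.2.2.1 c.2.1.2.1 c.2.1.2.2 c.2.2.2.1 c.2.2.2.2)
        rw [h5, ← sum_mul]
        have h7 : (l p * (1 / (p : ℝ) ^ 2 * Real.log p) / (c.2.1.1.natDegree * c.2.2.1.natDegree * Real.log x)) ^ 2 ≤
            1 / ((p : ℝ) ^ 4 * ((c.2.1.1.natDegree : ℝ) * c.2.2.1.natDegree) ^ 2) := by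
          have h8 : (l p * (1 / (p : ℝ) ^ 2 * Real.log p) / (c.2.1.1.natDegree * c.2.2.1.natDegree * Real.log x)) ^ 2 =
              (l p ^ 2 * (Real.log p / Real.log x) ^ 2) * (1 / ((p : ℝ) ^ 4 * ((c.2.1.1.natDegree : ℝ) * c.2.2.1.natDegree) ^ 2)) := by
            field_simp
          rw [h8]
          have h11 : (Real.log p / Real.log x) ^ 2 ≤ 1 := by
            apply pow_le_one₀ (by positivity)
            rw [div_le_one l1]
            exact l2
          have h12 : (0 : ℝ) ≤ 1 / ((p : ℝ) ^ 4 * ((c.2.1.1.natDegree : ℝ) * c.2.2.1.natDegree) ^ 2) := by positivity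
          have h13 : l p ^ 2 ≤ 1 := by
            have := hW1 x l hl p
            rw [← sq_abs]
            exact pow_le_one₀ (abs_nonneg _) this
          have h14 : l p ^ 2 * (Real.log p / Real.log x) ^ 2 ≤ 1 := mul_le_one₀ h13 (sq_nonneg _) h11
          exact mul_le_of_le_one_left h12 h14
        have h13 : (0 : ℝ) ≤ ∑ n : ZMod p, Pool.Agent.X35.GV.tw (fun t : ZMod p => (c.1.1.map (Int.castRingHom (ZMod p))).eval t)
          (fun t => (Pool.Agent.X35.GV.tr0 c.2.1.1 t : ℝ) * (Pool.Agent.X35.GV.tr0 c.2.2.1 t : ℝ)) n ^ 2 := sum_nonneg fun n _ => sq_nonneg _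
        rw [div_le_iff₀ hp0]
        calc _ ≤ (c.1.1.natDegree * (p : ℝ) ^ 2 * ((c.2.1.1.natDegree : ℝ) * c.2.2.1.natDegree * p) ^ 2) *
              (1 / ((p : ℝ) ^ 4 * ((c.2.1.1.natDegree : ℝ) * c.2.2.1.natDegree) ^ 2)) :=
              mul_le_mul h6 h7 (by positivity) (by positivity)
          _ = _ := by field_simp
      calc _ ≤ ∑ p ∈ (range (x + 1)).filter (fun p => p.Prime ∧ p ≠ 2), (c.1.1.natDegree : ℝ) * (1 / p) := sum_le_sum hone
        _ = (c.1.1.natDegree : ℝ) * ∑ p ∈ (range (x + 1)).filter (fun p => p.Prime ∧ p ≠ 2), (1 / p : ℝ) := by rw [mul_sum]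
        _ ≤ (c.1.1.natDegree : ℝ) * (1 + Real.log x) := by
            apply mul_le_mul_of_nonneg_left _ (by positivity)
            have h1 : (range (x + 1)).filter (fun p => p.Prime ∧ p ≠ 2) ⊆ Icc 1 x := by
              intro p hp
              obtain ⟨h1, h2, h3⟩ := hmem x p hp
              rw [mem_Icc]
              exact ⟨h1.one_lt.le, h3⟩
            have h2 : ∑ p ∈ (range (x + 1)).filter (fun p => p.Prime ∧ p ≠ 2), (1 / p : ℝ) ≤ ∑ p ∈ Icc 1 x, (1 / p : ℝ) :=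
              sum_le_sum_of_subset_of_nonneg h1 fun i _ _ => by positivity
            have h3 := harmonic_le_one_add_log x
            rw [harmonic_eq_sum_Icc] at h3
            push_cast at h3
            simp only [one_div] at h2 ⊢
            linarith)
  refine ⟨E, hE1, fun α hα hαE g h k hg hg1 hh hh1 hk hk1 => ?_⟩
  obtain ⟨i₀, hi₀⟩ := hE2 α hα hαE (⟨g, hg, hg1⟩, ⟨h, hh, hh1⟩, ⟨k, hk, hk1⟩)
  refine ⟨i₀, fun i hi n hn x hx1 hx2 w hw => ?_⟩
  have h1 := hi₀ i hi n hn x hx1 hx2 w hw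
  rw [hF] at h1
  have h2 : ∑ p ∈ (range (x + 1)).filter (fun p => p.Prime ∧ p ≠ 2),
      w p * ((average p g h k n / p - 2) * Real.log p) / (h.natDegree * k.natDegree * Real.log x) =
      total w g h k n x / (h.natDegree * k.natDegree * Real.log x) := by
    unfold total
    rw [sum_div]
  have h3 : |total w g h k n x / (h.natDegree * k.natDegree * Real.log x)| ≤ √(g.natDegree * (1 + Real.log x)) * (x : ℝ) ^ δ := by
    rw [← h2]
    exact h1
  rcases lt_or_ge x 3 with hx | hx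
  · have h4 : total w g h k n x = 0 := by
      unfold total
      apply sum_eq_zero
      intro p hp
      obtain ⟨e1, e2, e3⟩ := hmem x p hp
      have := e1.two_le
      omega
    rw [h4, abs_zero]
    have := Real.log_natCast_nonneg x
    positivity
  · have hxr : (3 : ℝ) ≤ x := by exact_mod_cast hx
    have hx0 : (0 : ℝ) < x := by linarith
    have hl : 0 < Real.log x := Real.log_pos (by linarith)
    have hD : (0 : ℝ) < h.natDegree := by exact_mod_cast hh1.pos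
    have hD' : (0 : ℝ) < k.natDegree := by exact_mod_cast hk1.pos
    rw [abs_div, abs_of_pos (by positivity : (0 : ℝ) < h.natDegree * k.natDegree * Real.log x), div_le_iff₀ (by positivity)] at h3
    refine h3.trans ?_
    rw [Real.sqrt_mul (Nat.cast_nonneg _)]
    have h5 : √(1 + Real.log x) ≤ 1 + Real.log x := by
      rw [Real.sqrt_le_left (by linarith)]
      nlinarith
    have h6 : 0 ≤ √(1 + Real.log x) := Real.sqrt_nonneg _
    calc √(g.natDegree : ℝ) * √(1 + Real.log x) * (x : ℝ) ^ δ * (h.natDegree * k.natDegree * Real.log x)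
        = (h.natDegree * k.natDegree * √(g.natDegree : ℝ) * (x : ℝ) ^ δ) * (√(1 + Real.log x) * Real.log x) := by ring
      _ ≤ (h.natDegree * k.natDegree * √(g.natDegree : ℝ) * (x : ℝ) ^ δ) * ((1 + Real.log x) * (1 + Real.log x)) := by
          apply mul_le_mul_of_nonneg_left _ (by positivity)
          apply mul_le_mul h5 (by linarith) hl.le (by linarith)
      _ = _ := by ring

end Pool.Agent.Results.MP_6090f9_nt.FibreProductsNearSequences
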