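import Pool.Agent.X293.QS.Gen
import Pool.Agent.X293.QS.Res
import Pool.Agent.X293.QS.Ex

/-!
# The residue formula for quadratic families of elliptic and hyperelliptic surfaces

`V` is the variety of the points `(x, y)` with `y_i ^ 2 = G_i(x)`, over the number field `K`, for
polynomials `G_i` in `k` variables such that no product of some of them is a constant times a square.
`X` is the surface `Y ^ 2 = D₀(X) ∏ (X - δ_j(x, t)) + (w + b(x, t, X)) ^ 2` over the function field
`E(V × 𝔸¹) = E(V)(w)`, for any number field `E ⊇ K`, where `D₀` is a separable monic polynomial over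
`𝓞_K`: a smooth double cover of the Hirzebruch surface `F_{2n}`, fibred over the projective line with
coordinate `t` into curves of genus `g` with one point at infinity.  For `g = 1` these are elliptic
surfaces over the projective line: rational surfaces for `n = 1`, K3 surfaces for `n = 2`, and surfaces
of Kodaira dimension one with geometric genus `n - 1` for `n ≥ 3`.  The relative dimension of the family
is two.

`𝔅_v` is the fibre average at the prime `v` of `E` of the traces of the Frobenius on `H²`, over the
points `(x, y, w)` of the base with `y_i ≠ 0` over which the surface is smooth, with a smooth fibre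
over `t = ∞`; the other points of a projective model of the base change `𝔅_v` by `O(1)`, which does not
affect the residue at `s = 2`.

The Néron-Severi group of `X` over `E(V)(w)` has rank `r + s + 1`, where `r` is the number of the
`δ_j` and `s` is the number of the irreducible factors of `D₀` over `E`, and this is the residue.  The
classes that are defined over `E(V)(w)` are sums over the conjugates of the roots of `D₀`, and the
residue is obtained from the zeta functions of the fields that are generated by these roots.

The definitions are in `Pool/Agent/X293/QS/Defs.lean`, `Pool/Agent/Y707/SF/Defs.lean`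
(`IsSmoothSurface`, `traceTwo`, `PicardRankAddTwo`), `Pool/Agent/Y707/DK/Alg.lean` (`numFactors`),
`Pool/Agent/Y707/PR/Sys.lean` (`HasResidue`), `Pool/Agent/Y707/PC/Fin.lean` (`IsFunctionField`) and
`Pool/Agent/Y707/PC/Csq.lean` (`IsConstSq`).
-/

set_option autoImplicit false
set_option maxHeartbeats 400000

namespace Pool.Agent.Results.MP_6090f9_nt.QuadraticSurfaces

open Polynomial NumberField IsDedekindDomain Pool.Agent.X293.QS
open Pool.Agent.Y707.SF (IsSmoothSurface PicardRankAddTwo)
open Pool.Agent.Y707.PR (HasResidue)
open Pool.Agent.Y707.PC (IsFunctionField IsConstSq exists_field)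

theorem result (K : Type) [Field K] [NumberField K] (k l : ℕ)
    (G : Fin l → MvPolynomial (Fin k) (𝓞 K)) :
    (∀ (r g n : ℕ) (D₀ : (𝓞 K)[X]) (δ : Fin r → (MvPolynomial (Fin k) (𝓞 K))[X])
      (b : (MvPolynomial (Fin k) (𝓞 K))[X][X]), IsQuadSurface g n G D₀ δ b →
      ∀ (E : IntermediateField K (AlgebraicClosure K)) [NumberField E],
        -- the analytic side: the residue at `s = 2` of the series of the averages `𝔅_v`
        (∀ R : Finset (HeightOneSpectrum (𝓞 E)), HasResidue R
          (fun v => averageS g n G D₀ δ b
            ((Ideal.Quotient.mk v.asIdeal).comp (algebraMap (𝓞 K) (𝓞 E)))) 2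
              (rankS r D₀ E + 2)) ∧
        -- the algebraic side: the Néron-Severi rank over `M(w)`, for the function field `M` of `V`
        (∀ (M : Type) [Field M] [Algebra E M] (ξ : Fin k → M) (η : Fin l → M),
          IsFunctionField G E ξ η → IsSmoothSurface g n (genericS D₀ δ b E ξ) ∧
            PicardRankAddTwo (genericS D₀ δ b E ξ) (rankS r D₀ E))) ∧
    -- the function field exists
    (∀ E : IntermediateField K (AlgebraicClosure K),
      ∃ (M : Type) (_ : Field M) (_ : Algebra E M) (ξ : Fin k → M) (η : Fin l → M),
        IsFunctionField G E ξ η) ∧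
    -- examples, for all `V`, `g`, `n`, `D₀`
    ((∀ S : Finset (Fin l), S.Nonempty → ¬ IsConstSq (∏ i ∈ S, G i)) →
      ∀ (r g n : ℕ) (D₀ : (𝓞 K)[X]), 1 ≤ n → D₀.Monic →
        (D₀.map (algebraMap (𝓞 K) K)).Separable → D₀.natDegree + r = 2 * g + 1 →
        ∃ (δ : Fin r → (MvPolynomial (Fin k) (𝓞 K))[X])
          (b : (MvPolynomial (Fin k) (𝓞 K))[X][X]), IsQuadSurface g n G D₀ δ b) := by
  refine ⟨fun r g n D₀ δ b h E _ => ⟨fun R => surface_residueS h E R, fun M _ _ ξ η hM =>
    surface_algebraicS h E hM⟩, fun E => exists_field G E, fun hG r g n D₀ hn hm hs hd =>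
    exampleS G hG hn hm hs hd⟩

end Pool.Agent.Results.MP_6090f9_nt.QuadraticSurfaces
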