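import Pool.Agent.Y707.SF.Fin
import Pool.Agent.X293.SP.Ex

/-!
# The residue formula for linear pencils of elliptic and hyperelliptic surfaces

`V` is the variety of the points `(x, y)` with `y_i ^ 2 = G_i(x)`, over the number field `K`, for
polynomials `G_i` in `k` variables such that no product of some of them is a constant times a square:
all function fields of characteristic zero that are generated over a purely transcendental extension of
a number field by square roots are of this form.  `X` is the surface
`Y ^ 2 = a(x, t, X) + w ∏ (X - α_j(x, t))` over the function field `E(V × 𝔸¹) = E(V)(w)`, for any number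
field `E ⊇ K`: a smooth double cover of the Hirzebruch surface `F_{2n}`, fibred over the projective line
with coordinate `t` into curves of genus `g` with one point at infinity.  For `g = 1` these are elliptic
surfaces over the projective line: rational surfaces for `n = 1`, K3 surfaces for `n = 2`, and surfaces
of Kodaira dimension one with geometric genus `n - 1` for `n ≥ 3`.  The relative dimension of the family
is two.

`𝔅_v` is the fibre average at the prime `v` of `E` of the traces of the Frobenius on `H²`, over the
points `(x, y, w)` of the base with `y_i ≠ 0` over which the surface is smooth, with a smooth fibre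
over `t = ∞`; the other points of a projective model of the base change `𝔅_v` by `O(1)`, which does not
affect the residue at `s = 2`.

The Néron-Severi group of `X` over `E(V)(w)` has rank `c + 2`, where `c` is the number of the `j` for
which `a(x, t, α_j(x, t))` is a square in `E(V)(t)`, and this is the residue, although the Tate
conjecture is not known for `V`, nor for the total space.  It takes all the values `2, …, 2 g + 2`, for
all `V`, `g` and `n`.

All definitions are in `Pool/Agent/Y707/SF/Defs.lean`, `Pool/Agent/Y707/PR/Sys.lean` (`HasResidue`),
`Pool/Agent/Y707/PC/Fin.lean` (`IsFunctionField`) and `Pool/Agent/Y707/PC/Csq.lean` (`IsConstSq`).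
-/

set_option autoImplicit false
set_option maxHeartbeats 400000

namespace Pool.Agent.Results.MP_6090f9_nt.SurfacePencils

open Polynomial NumberField IsDedekindDomain Pool.Agent.Y707.SF
open Pool.Agent.Y707.PR (HasResidue)
open Pool.Agent.Y707.PC (IsFunctionField IsConstSq exists_field)

theorem result (K : Type) [Field K] [NumberField K] (k l : ℕ)
    (G : Fin l → MvPolynomial (Fin k) (𝓞 K)) :
    (∀ (r g n : ℕ) (a : (MvPolynomial (Fin k) (𝓞 K))[X][X])
      (α : Fin r → (MvPolynomial (Fin k) (𝓞 K))[X]), IsSurfacePencil g n G a α →
      ∀ (E : IntermediateField K (AlgebraicClosure K)) [NumberField E],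
        -- the analytic side: the residue at `s = 2` of the series of the averages `𝔅_v`
        (∀ R : Finset (HeightOneSpectrum (𝓞 E)), HasResidue R
          (fun v => averageTwo g n G a α
            ((Ideal.Quotient.mk v.asIdeal).comp (algebraMap (𝓞 K) (𝓞 E)))) 2
              (classes G a α E + 2)) ∧
        -- the algebraic side: the Néron-Severi rank over `M(w)`, for the function field `M` of `V`
        (∀ (M : Type) [Field M] [Algebra E M] (ξ : Fin k → M) (η : Fin l → M),
          IsFunctionField G E ξ η → IsSmoothSurface g n (genericSurface a α E ξ) ∧
            PicardRankAddTwo (genericSurface a α E ξ) (classes G a α E))) ∧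
    -- the function field exists
    (∀ E : IntermediateField K (AlgebraicClosure K),
      ∃ (M : Type) (_ : Field M) (_ : Algebra E M) (ξ : Fin k → M) (η : Fin l → M),
        IsFunctionField G E ξ η) ∧
    -- examples, for all `V`, `g`, `n`, with all the ranks `r + 2`, `r ≤ 2 g`
    ((∀ S : Finset (Fin l), S.Nonempty → ¬ IsConstSq (∏ i ∈ S, G i)) →
      ∀ r g n : ℕ, 1 ≤ n → r ≤ 2 * g →
        ∃ (a : (MvPolynomial (Fin k) (𝓞 K))[X][X]) (α : Fin r → (MvPolynomial (Fin k) (𝓞 K))[X]),
          IsSurfacePencil g n G a α ∧
            ∀ E : IntermediateField K (AlgebraicClosure K), classes G a α E = r) := by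
  refine ⟨fun r g n a α h E _ => ⟨fun R => surface_residue h E R, fun M _ _ ξ η hM =>
    surface_algebraic h E hM⟩, fun E => exists_field G E, fun hG r g n hn hr => ?_⟩
  refine ⟨_, _, Pool.Agent.X293.SP.example_pencil G hG hn hr, fun E => ?_⟩
  have h := Pool.Agent.X293.SP.classes_ex (r := r) G (2 * g + 1 - r) (n * (2 * g + 1)) E
  rwa [← mul_assoc] at h

end Pool.Agent.Results.MP_6090f9_nt.SurfacePencils
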